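import Pool.Agent.H57.PfC

set_option autoImplicit false

namespace Pool.Agent.Results.MP_fe7b28_co.Independent

open Cardinal

/-- `ℵ₁` works for `ℵ₁`: every graph of order `ℵ₁` is an induced subgraph of some Cayley graph of
every group of order at least `ℵ₁`. -/
def Works : Prop :=
  ∀ (V : Type) (X : SimpleGraph V), #V = ℵ₁ → ∀ (G : Type) [Group G], ℵ₁ ≤ #G →
    ∃ S : Set G, 1 ∉ S ∧ S⁻¹ = S ∧ Subgroup.closure S = ⊤ ∧
      ∃ φ : V → G, Function.Injective φ ∧ ∀ u v, X.Adj u v ↔ (φ u)⁻¹ * φ v ∈ S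

theorem result : (H84.DtDefs.PFA → Works) ∧ (H33.DiaDefs.Diamond → ¬ Works) := by
  refine ⟨fun h V X hV G _ hG => H57.Pf.cay h hV X hG, fun h hw => ?_⟩
  obtain ⟨X, G, _, h1, h2⟩ := H57.Ap.nocay h
  obtain ⟨S, -, -, -, φ, h3, h4⟩ := hw _ X H57.Lots.mk_W1 G h1.ge
  exact h2 S φ h3 h4

end Pool.Agent.Results.MP_fe7b28_co.Independent
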